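import Mathlib

/-!
# WAQ: a finite abelian group with one-dimensional torsion is cyclic (pure algebra)
-/

namespace Pool.Agent.WAQ.H26C

open Finset

/-- a finite abelian group in which the `l`-torsion is generated by each of its nonzero elements,
for all primes `l`, is cyclic -/
theorem cyclic_of_prime (B : Type) [AddCommGroup B] [Finite B]
    (h : ∀ l : ℕ, l.Prime → ∀ x y : B, l • x = 0 → l • y = 0 → x ≠ 0 → ∃ k : ℤ, y = k • x) :
    IsAddCyclic B := by
  classical
  have := Fintype.ofFinite B
  have hp : ∀ l : ℕ, l.Prime → #{b : B | l • b = 0} ≤ l := by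
    intro l hl
    by_cases h0 : ∃ x : B, l • x = 0 ∧ x ≠ 0
    · obtain ⟨x, hx, hx0⟩ := h0
      have hsub : ({b : B | l • b = 0} : Finset B) ⊆ (range l).image (fun k : ℕ => k • x) := by
        intro y hy
        rw [mem_filter] at hy
        obtain ⟨k, hk⟩ := h l hl x y hx hy.2 hx0
        rw [mem_image]
        refine ⟨(k % (l : ℤ)).toNat, ?_, ?_⟩
        · rw [mem_range]
          have h1 : 0 < (l : ℤ) := by exact_mod_cast hl.pos
          have h2 := Int.emod_lt_of_pos k h1
          have h3 := Int.emod_nonneg k h1.ne'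
          omega
        · have h1 : 0 < (l : ℤ) := by exact_mod_cast hl.pos
          have h3 := Int.emod_nonneg k h1.ne'
          have h4 : (((k % (l : ℤ)).toNat : ℕ) : ℤ) = k % (l : ℤ) := Int.toNat_of_nonneg h3
          rw [← natCast_zsmul, h4, hk]
          have h5 : k = k % (l : ℤ) + (k / (l : ℤ)) * (l : ℤ) := by
            rw [mul_comm]; exact (Int.emod_add_mul_ediv k l).symm
          conv_rhs => rw [h5, add_zsmul, mul_zsmul, natCast_zsmul, hx, zsmul_zero, add_zero]
      exact (card_le_card hsub).trans (card_image_le.trans (card_range l).le)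
    · push Not at h0
      have hsub : ({b : B | l • b = 0} : Finset B) ⊆ {0} := by
        intro y hy
        rw [mem_filter] at hy
        rw [mem_singleton]
        exact h0 y hy.2
      exact (card_le_card hsub).trans (by rw [card_singleton]; exact hl.one_le)
  have hn : ∀ n : ℕ, 0 < n → #{b : B | n • b = 0} ≤ n := by
    intro n
    induction n using induction_on_primes with
    | zero => intro h; exact absurd h (lt_irrefl 0)
    | one =>
      intro _
      have hsub : ({b : B | 1 • b = 0} : Finset B) ⊆ {0} := by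
        intro y hy
        rw [mem_filter, one_smul] at hy
        rw [mem_singleton]
        exact hy.2
      exact (card_le_card hsub).trans (card_singleton _).le
    | prime_mul p a hpp ih =>
      intro hpa
      have ha : 0 < a := Nat.pos_of_mul_pos_right hpa |> fun h => by
        rcases Nat.eq_zero_or_pos a with h0 | h0
        · subst h0; simp at hpa
        · exact h0
      have ih' := ih ha
      have h1 : #{b : B | (p * a) • b = 0} ≤ a * #(({b : B | (p * a) • b = 0} : Finset B).image
          (fun b => a • b)) := by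
        apply card_le_mul_card_image
        intro c hc
        rw [mem_image] at hc
        obtain ⟨x0, hx0, hx0c⟩ := hc
        refine le_trans ?_ ih'
        apply card_le_card_of_injOn (fun x => x - x0)
        · intro x hx
          simp only [coe_filter, mem_filter, mem_univ, true_and, Set.mem_ofPred_eq] at hx ⊢
          rw [nsmul_sub, hx.2]
          exact sub_eq_zero.mpr hx0c.symm
        · intro x _ y _ hxy
          exact sub_left_injective hxy
      have h2 : (({b : B | (p * a) • b = 0} : Finset B).image (fun b => a • b)) ⊆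
          ({b : B | p • b = 0} : Finset B) := by
        intro c hc
        rw [mem_image] at hc
        obtain ⟨x0, hx0, rfl⟩ := hc
        rw [mem_filter] at hx0 ⊢
        refine ⟨mem_univ _, ?_⟩
        rw [← mul_nsmul', ← hx0.2]
      calc #{b : B | (p * a) • b = 0} ≤ a * #(({b : B | (p * a) • b = 0} : Finset B).image
          (fun b => a • b)) := h1
        _ ≤ a * p := Nat.mul_le_mul_left a ((card_le_card h2).trans (hp p hpp))
        _ = p * a := mul_comm _ _
  exact isAddCyclic_of_card_nsmul_eq_zero_le hn

/-- the version used for `E(F_p) / E[2]` -/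
theorem two_cyclic (A : Type) [AddCommGroup A] [Finite A]
    (h1 : ∀ l : ℕ, l.Prime → l ≠ 2 → ∀ x y : A, l • x = 0 → l • y = 0 → x ≠ 0 →
      ∃ k : ℤ, y = k • x)
    (h2 : ∀ x y : A, 4 • x = 0 → 4 • y = 0 → 2 • x ≠ 0 → ∃ k : ℤ, 2 • y = k • (2 • x)) :
    ∃ g : A, ∀ P : A, ∃ k : ℤ, (2 : ℤ) • (P - k • g) = 0 := by
  classical
  let f : A →+ A := nsmulAddMonoidHom 2
  have hf : ∀ x, f x = 2 • x := fun x => rfl
  have hcyc : IsAddCyclic f.range := by
    apply cyclic_of_prime
    intro l hl x y hx hy hx0
    obtain ⟨x', hx'⟩ := x.2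
    obtain ⟨y', hy'⟩ := y.2
    rw [hf] at hx' hy'
    have hx1 : l • (x : A) = 0 := by
      have := congrArg (Subtype.val) hx
      simpa using this
    have hy1 : l • (y : A) = 0 := by
      have := congrArg (Subtype.val) hy
      simpa using this
    have hx2 : (x : A) ≠ 0 := fun h => hx0 (Subtype.ext h)
    by_cases hl2 : l = 2
    · subst hl2
      obtain ⟨k, hk⟩ := h2 x' y' (by
        rw [show (4 : ℕ) = 2 * 2 from rfl, mul_nsmul', hx', hx1]) (by
        rw [show (4 : ℕ) = 2 * 2 from rfl, mul_nsmul', hy', hy1]) (by rw [hx']; exact hx2)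
      refine ⟨k, Subtype.ext ?_⟩
      rw [hx', hy'] at hk
      simpa using hk
    · obtain ⟨k, hk⟩ := h1 l hl hl2 x y hx1 hy1 hx2
      refine ⟨k, Subtype.ext ?_⟩
      simpa using hk
  obtain ⟨g, hg⟩ := hcyc.exists_generator
  obtain ⟨g', hg'⟩ := g.2
  refine ⟨g', fun P => ?_⟩
  obtain ⟨k, hk⟩ := AddSubgroup.mem_zmultiples_iff.mp (hg ⟨f P, ⟨P, rfl⟩⟩)
  refine ⟨k, ?_⟩
  have h3 := congrArg Subtype.val hk
  simp only [AddSubgroup.coe_zsmul] at h3
  rw [← hg', hf, hf] at h3
  rw [zsmul_sub, sub_eq_zero, smul_comm, two_zsmul, two_zsmul]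
  rw [two_nsmul, two_nsmul] at h3
  exact h3.symm

end Pool.Agent.WAQ.H26C
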