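import Pool.Agent.WAQ.Defs
import Pool.Agent.Helper26_WAQ.CycPt
import Pool.Agent.Helper50_WAP.TOR
import Pool.Agent.Helper46_WAP.TOB
import Pool.Agent.Helper33_WAP.GNP
import Pool.Agent.Helper60_WAP.NCO
import Pool.Agent.Helper16_WAP.DEG
import Pool.Agent.Helper94_WAP.PRF
import Pool.Agent.Helper89_WAP.LMF
import Pool.Agent.Helper10_WAP.HAL

/-!
# WAQ: the condition `Cyc p` for `y ^ 2 = x ^ 3 - x` and all primes `p = 3 mod 4`
-/

namespace Pool.Agent.WAQ.H26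

open WeierstrassCurve.Affine

/-- the parameters of `x ^ 3 - x` -/
@[reducible] def par1 : Par where
  a := 1
  b := -1
  ha := by norm_num
  hb := by norm_num
  hab := by norm_num

/-- the torsion bound (squad WAP) -/
theorem torB : Pool.Agent.WAP.TorStmt :=
  Pool.Agent.WAP.H50.tor (Pool.Agent.WAP.H46.tob Pool.Agent.WAP.H33.gnp
    (Pool.Agent.WAP.H60.nco (Pool.Agent.WAP.H10.hal Pool.Agent.WAP.H89.lmf))
    (Pool.Agent.WAP.H16.deg Pool.Agent.WAP.H94.prf Pool.Agent.WAP.H89.lmf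
      (Pool.Agent.WAP.H60.nco (Pool.Agent.WAP.H10.hal Pool.Agent.WAP.H89.lmf))))

theorem W_par1 (F : Type) [Field F] (d : F) : @W par1 F _ d = Pool.Agent.WAP.W d := by
  unfold W Pool.Agent.WAP.W
  have e1 : @ea par1 F _ = 1 := by
    show ((1 : ℤ) : F) = 1
    exact Int.cast_one
  have e2 : @eb par1 F _ = -1 := by
    show ((-1 : ℤ) : F) = -1
    rw [Int.cast_neg, Int.cast_one]
  rw [e1, e2]
  congr 1 <;> ring

/-- `Cyc p` for `x ^ 3 - x` and `p = 3 mod 4` -/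
theorem cyc34 (p : ℕ) (_hp : p.Prime) (h : p % 4 = 3) : @Cyc par1 p := by
  intro hpf δ hδ
  have h2 : (2 : ZMod p) ≠ 0 := by
    intro h0
    have h1 : ((2 : ℕ) : ZMod p) = 0 := by exact_mod_cast h0
    rw [ZMod.natCast_eq_zero_iff] at h1
    have h3 := Nat.le_of_dvd (by norm_num) h1
    interval_cases p <;> omega
  have hF : ∀ x : ZMod p, x ^ 2 ≠ -1 := by
    intro x hx
    have h1 : IsSquare (-1 : ZMod p) := ⟨x, by rw [← hx, sq]⟩
    exact (ZMod.exists_sq_eq_neg_one_iff.mp h1) h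
  obtain ⟨ι, hι⟩ : ∃ ι : AlgebraicClosure (ZMod p), ι ^ 2 = -1 :=
    IsAlgClosed.exists_pow_nat_eq (-1) (by norm_num)
  let φ : GaussianInt →+* AlgebraicClosure (ZMod p) :=
    Zsqrtd.lift ⟨ι, by rw [← sq, hι]; simp⟩
  let _ : Algebra GaussianInt (AlgebraicClosure (ZMod p)) := φ.toAlgebra
  rw [W_par1]
  exact H26C.cycF torB (ZMod p) (AlgebraicClosure (ZMod p))
    (algebraMap (ZMod p) (AlgebraicClosure (ZMod p))) hF h2 δ hδ

end Pool.Agent.WAQ.H26
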