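import Mathlib

/-!
# WAQ: the addition law near the origin, short Weierstrass form
-/

namespace Pool.Agent.WAQ.H26

section core
variable {F : Type} [NormedField F]

theorem ult_sub (hu : ∀ x y : F, ‖x + y‖ ≤ max ‖x‖ ‖y‖) (x y : F) :
    ‖x - y‖ ≤ max ‖x‖ ‖y‖ := by
  have h := hu x (-y)
  rwa [norm_neg, ← sub_eq_add_neg] at h

theorem ult_eq (hu : ∀ x y : F, ‖x + y‖ ≤ max ‖x‖ ‖y‖) {x y : F} (h : ‖x‖ < ‖y‖) :
    ‖x + y‖ = ‖y‖ := by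
  apply le_antisymm
  · exact (hu x y).trans (max_le h.le le_rfl)
  · by_contra hc
    push Not at hc
    have h1 := ult_sub hu (x + y) x
    rw [add_sub_cancel_left] at h1
    rcases le_max_iff.mp h1 with h2 | h2
    · exact absurd h2 (not_le.mpr hc)
    · exact absurd h2 (not_le.mpr h)

/-- `Y ^ 2 = X ^ 3 + A X + B`, the line `Y = l X + m`. -/
theorem core (hu : ∀ x y : F, ‖x + y‖ ≤ max ‖x‖ ‖y‖) {A B X1 Y1 X2 Y2 X3 Y3 l m : F} {M D : ℝ}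
    (h21 : ‖(2 : F)‖ ≤ 1) (h31 : ‖(3 : F)‖ ≤ 1) (hM : 0 < M) (hD0 : 0 ≤ D)
    (hA : ‖A‖ ≤ D ^ 2) (hB : ‖B‖ ≤ D ^ 3)
    (hdM : D * M ^ 2 < 1) (hY1 : Y1 ≠ 0) (hY2 : Y2 ≠ 0)
    (hz1 : ‖X1 / Y1‖ ≤ M) (hz2 : ‖X2 / Y2‖ ≤ M) (hw1 : ‖1 / Y1‖ ≤ M ^ 3)
    (e1 : Y1 = l * X1 + m) (e2 : Y2 = l * X2 + m) (e3 : Y3 = -(l * X3 + m))
    (hc3 : Y3 ^ 2 = X3 ^ 3 + A * X3 + B)
    (s1 : X1 + X2 + X3 = l ^ 2) (s2 : X1 * X2 + X1 * X3 + X2 * X3 = A - 2 * l * m)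
    (s3 : X1 * X2 * X3 = m ^ 2 - B) (hm : m ≠ 0) (hl : ‖l‖ ≤ ‖m‖ * M ^ 2) :
    D < ‖X3‖ ∧ ‖X3 / Y3 - X1 / Y1 - X2 / Y2‖ ≤ D ^ 2 * M ^ 5 := by
  have hmp : 0 < ‖m‖ := norm_pos_iff.mpr hm
  -- α = l / m, β = 1 / m
  have hα : ‖l / m‖ ≤ M ^ 2 := by
    rw [norm_div, div_le_iff₀ hmp]
    linarith
  have hβ : ‖1 / m‖ ≤ M ^ 3 := by
    have h1 : 1 / m = (l / m) * (X1 / Y1) + 1 / Y1 := by
      rw [div_mul_div_comm, div_add_div _ _ (mul_ne_zero hm hY1) hY1, div_eq_div_iff hm (mul_ne_zero (mul_ne_zero hm hY1) hY1)]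
      have h5 : Y1 = l * X1 + m := e1
      linear_combination (m * Y1) * h5
    rw [h1]
    refine (hu _ _).trans (max_le ?_ hw1)
    rw [norm_mul]
    calc ‖l / m‖ * ‖X1 / Y1‖ ≤ M ^ 2 * M := mul_le_mul hα hz1 (norm_nonneg _) (by positivity)
      _ = M ^ 3 := by ring
  have hAα : ‖A * (l / m) ^ 2‖ < 1 := by
    rw [norm_mul, norm_pow]
    calc ‖A‖ * ‖l / m‖ ^ 2 ≤ D ^ 2 * (M ^ 2) ^ 2 := by gcongr
      _ = (D * M ^ 2) ^ 2 := by ring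
      _ < 1 := pow_lt_one₀ (by positivity) hdM two_ne_zero
  have hBα : ‖B * (l / m) ^ 3‖ < 1 := by
    rw [norm_mul, norm_pow]
    calc ‖B‖ * ‖l / m‖ ^ 3 ≤ D ^ 3 * (M ^ 2) ^ 3 := by gcongr
      _ = (D * M ^ 2) ^ 3 := by ring
      _ < 1 := pow_lt_one₀ (by positivity) hdM (by norm_num)
  have h1α : ‖1 + A * (l / m) ^ 2 - B * (l / m) ^ 3‖ = 1 := by
    have h1 : ‖A * (l / m) ^ 2 - B * (l / m) ^ 3‖ < ‖(1 : F)‖ := by
      rw [norm_one]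
      exact lt_of_le_of_lt (ult_sub hu _ _) (max_lt hAα hBα)
    have h2 := ult_eq hu h1
    rw [norm_one] at h2
    rw [← h2]
    congr 1
    ring
  have hD : 1 + A * (l / m) ^ 2 - B * (l / m) ^ 3 ≠ 0 := by
    intro h
    rw [h, norm_zero] at h1α
    exact zero_ne_one h1α
  have hDD : 1 + A * (l / m) ^ 2 - B * (l / m) ^ 3
      = (m ^ 3 + A * l ^ 2 * m - B * l ^ 3) / m ^ 3 := by
    field_simp
  have hD2 : m ^ 3 + A * l ^ 2 * m - B * l ^ 3 ≠ 0 := by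
    intro h
    apply hD
    rw [hDD, h, zero_div]
  have hprod : Y1 * Y2 * Y3 = -(m ^ 3 + A * l ^ 2 * m - B * l ^ 3) := by
    rw [e1, e2, e3]
    linear_combination (-l ^ 3) * s3 + (-l ^ 2 * m) * s2 + (-l * m ^ 2) * s1
  have hY3 : Y3 ≠ 0 := by
    rintro rfl
    rw [mul_zero] at hprod
    exact (neg_ne_zero.mpr hD2) hprod.symm
  have hdiff : X3 / Y3 - X1 / Y1 - X2 / Y2 =
      -(2 * A * (l / m) * (1 / m) - 3 * B * (l / m) ^ 2 * (1 / m)) /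
        (1 + A * (l / m) ^ 2 - B * (l / m) ^ 3) := by
    have h4 : -(2 * A * (l / m) * (1 / m) - 3 * B * (l / m) ^ 2 * (1 / m)) /
        (1 + A * (l / m) ^ 2 - B * (l / m) ^ 3)
        = -(2 * A * l * m - 3 * B * l ^ 2) / (m ^ 3 + A * l ^ 2 * m - B * l ^ 3) := by
      rw [hDD]
      field_simp
    rw [h4, div_sub_div _ _ hY3 hY1, div_sub_div _ _ (mul_ne_zero hY3 hY1) hY2,
      div_eq_div_iff (mul_ne_zero (mul_ne_zero hY3 hY1) hY2) hD2]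
    have h5 : (X3 * Y1 - Y3 * X1) * Y2 - Y3 * Y1 * X2 = 2 * A * l * m - 3 * B * l ^ 2 := by
      rw [e1, e2, e3]
      linear_combination (3 * l ^ 2) * s3 + (2 * l * m) * s2 + (m ^ 2) * s1
    have h6 : Y3 * Y1 * Y2 = -(m ^ 3 + A * l ^ 2 * m - B * l ^ 3) := by
      rw [← hprod]; ring
    rw [h5, h6]
    ring
  have hest : ‖X3 / Y3 - X1 / Y1 - X2 / Y2‖ ≤ D ^ 2 * M ^ 5 := by
    rw [hdiff, norm_div, h1α, div_one, norm_neg]
    refine (ult_sub hu _ _).trans (max_le ?_ ?_)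
    · rw [norm_mul, norm_mul, norm_mul]
      calc ‖(2 : F)‖ * ‖A‖ * ‖l / m‖ * ‖1 / m‖ ≤ 1 * D ^ 2 * M ^ 2 * M ^ 3 := by
            gcongr
        _ = D ^ 2 * M ^ 5 := by ring
    · rw [norm_mul, norm_mul, norm_mul, norm_pow]
      calc ‖(3 : F)‖ * ‖B‖ * ‖l / m‖ ^ 2 * ‖1 / m‖ ≤ 1 * D ^ 3 * (M ^ 2) ^ 2 * M ^ 3 := by
            gcongr
        _ = (D * M ^ 2) * (D ^ 2 * M ^ 5) := by ring
        _ ≤ 1 * (D ^ 2 * M ^ 5) := mul_le_mul_of_nonneg_right hdM.le (by positivity)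
        _ = D ^ 2 * M ^ 5 := one_mul _
  refine ⟨?_, hest⟩
  -- |z3| ≤ M
  have hz3 : ‖X3 / Y3‖ ≤ M := by
    have h1 : X3 / Y3 = (X3 / Y3 - X1 / Y1 - X2 / Y2) + (X1 / Y1 + X2 / Y2) := by ring
    rw [h1]
    refine (hu _ _).trans (max_le (hest.trans ?_) ((hu _ _).trans (max_le hz1 hz2)))
    have h2 : D ^ 2 * M ^ 5 = (D * M ^ 2) ^ 2 * M := by ring
    rw [h2]
    have h3 : (D * M ^ 2) ^ 2 ≤ 1 := pow_le_one₀ (by positivity) hdM.le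
    calc (D * M ^ 2) ^ 2 * M ≤ 1 * M := mul_le_mul_of_nonneg_right h3 hM.le
      _ = M := one_mul M
  have hw3 : ‖1 / Y3‖ ≤ M ^ 3 := by
    have h1 : 1 / Y3 = -(1 / m) - (l / m) * (X3 / Y3) := by
      field_simp
      linear_combination e3
    rw [h1]
    refine (ult_sub hu _ _).trans (max_le ?_ ?_)
    · rwa [norm_neg]
    · rw [norm_mul]
      calc ‖l / m‖ * ‖X3 / Y3‖ ≤ M ^ 2 * M := mul_le_mul hα hz3 (norm_nonneg _) (by positivity)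
        _ = M ^ 3 := by ring
  by_contra hcon
  push Not at hcon
  have h1 : ‖Y3‖ ^ 2 ≤ D ^ 3 := by
    rw [← norm_pow, hc3]
    refine (hu _ _).trans (max_le ((hu _ _).trans (max_le ?_ ?_)) hB)
    · rw [norm_pow]
      exact pow_le_pow_left₀ (norm_nonneg _) hcon 3
    · rw [norm_mul]
      calc ‖A‖ * ‖X3‖ ≤ D ^ 2 * D := mul_le_mul hA hcon (norm_nonneg _) (by positivity)
        _ = D ^ 3 := by ring
  have hY3p : 0 < ‖Y3‖ := norm_pos_iff.mpr hY3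
  have h2 : 1 ≤ M ^ 3 * ‖Y3‖ := by
    rw [norm_div, norm_one, div_le_iff₀ hY3p] at hw3
    exact hw3
  have h3 : 1 ≤ (M ^ 3 * ‖Y3‖) ^ 2 := one_le_pow₀ h2
  have h4 : (M ^ 3 * ‖Y3‖) ^ 2 ≤ (D * M ^ 2) ^ 3 := by
    calc (M ^ 3 * ‖Y3‖) ^ 2 = M ^ 6 * ‖Y3‖ ^ 2 := by ring
      _ ≤ M ^ 6 * D ^ 3 := mul_le_mul_of_nonneg_left h1 (by positivity)
      _ = (D * M ^ 2) ^ 3 := by ring
  have h5 : (D * M ^ 2) ^ 3 < 1 := pow_lt_one₀ (by positivity) hdM (by norm_num)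
  linarith

/-- the full addition statement: two points of `Y ^ 2 = X ^ 3 + A X + B` far away, the third point
is given by the chord or the tangent. -/
theorem core2 (hu : ∀ x y : F, ‖x + y‖ ≤ max ‖x‖ ‖y‖) {A B X1 Y1 X2 Y2 X3 Y3 l : F} {M D : ℝ}
    (h21 : ‖(2 : F)‖ ≤ 1) (h31 : ‖(3 : F)‖ ≤ 1) (hM : 0 < M) (hD0 : 0 ≤ D)
    (hA : ‖A‖ ≤ D ^ 2) (hB : ‖B‖ ≤ D ^ 3) (hdM : D * M ^ 2 < 1)
    (hX1 : D < ‖X1‖)
    (hY1 : Y1 ≠ 0) (hY2 : Y2 ≠ 0)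
    (a1 : ‖X1‖ * ‖X1 / Y1‖ ^ 2 = 1)
    (hz1 : ‖X1 / Y1‖ ≤ M) (hz2 : ‖X2 / Y2‖ ≤ M)
    (hw1 : ‖1 / Y1‖ ≤ M ^ 3) (hw2 : ‖1 / Y2‖ ≤ M ^ 3)
    (f1 : Y1 ^ 2 = X1 ^ 3 + A * X1 + B) (f2 : Y2 ^ 2 = X2 ^ 3 + A * X2 + B)
    (f3 : Y3 ^ 2 = X3 ^ 3 + A * X3 + B)
    (hl : (X1 ≠ X2 ∧ l * (X1 - X2) = Y1 - Y2) ∨
      (X1 = X2 ∧ Y1 = Y2 ∧ l * (2 * Y1) = 3 * X1 ^ 2 + A))
    (g3 : X3 = l ^ 2 - X1 - X2) (g4 : Y3 = -(l * (X3 - X1) + Y1)) :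
    D < ‖X3‖ ∧ ‖X3 / Y3 - X1 / Y1 - X2 / Y2‖ ≤ D ^ 2 * M ^ 5 := by
  have hX10 : X1 ≠ 0 := by
    intro h
    rw [h, norm_zero] at hX1
    exact absurd hX1 (not_lt.mpr hD0)
  rcases hl with ⟨hx, hl2⟩ | ⟨hxx, hyy, hl2⟩
  · have hxs : X1 - X2 ≠ 0 := sub_ne_zero.mpr hx
    have hm2 : Y2 = l * X2 + (Y1 - l * X1) := by linear_combination hl2
    set z1 : F := X1 / Y1 with hz1d
    set z2 : F := X2 / Y2 with hz2d
    set w1 : F := 1 / Y1 with hw1d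
    set w2 : F := 1 / Y2 with hw2d
    have r1 : w1 = z1 ^ 3 + A * z1 * w1 ^ 2 + B * w1 ^ 3 := by
      rw [hz1d, hw1d]
      field_simp
      linear_combination f1
    have r2 : w2 = z2 ^ 3 + A * z2 * w2 ^ 2 + B * w2 ^ 3 := by
      rw [hz2d, hw2d]
      field_simp
      linear_combination f2
    have hAw : ∀ {z w : F}, ‖z‖ ≤ M → ‖w‖ ≤ M ^ 3 → ‖A * w ^ 2‖ ≤ M ^ 2 ∧
        ‖A * z * w‖ < 1 := by
      intro z w hz hw
      constructor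
      · rw [norm_mul, norm_pow]
        calc ‖A‖ * ‖w‖ ^ 2 ≤ D ^ 2 * (M ^ 3) ^ 2 := by gcongr
          _ = (D * M ^ 2) ^ 2 * M ^ 2 := by ring
          _ ≤ 1 * M ^ 2 := by
            apply mul_le_mul_of_nonneg_right _ (by positivity)
            exact pow_le_one₀ (by positivity) hdM.le
          _ = M ^ 2 := one_mul _
      · rw [norm_mul, norm_mul]
        calc ‖A‖ * ‖z‖ * ‖w‖ ≤ D ^ 2 * M * M ^ 3 := by gcongr
          _ = (D * M ^ 2) ^ 2 := by ring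
          _ < 1 := pow_lt_one₀ (by positivity) hdM two_ne_zero
    have hBw : ∀ {w w' : F}, ‖w‖ ≤ M ^ 3 → ‖w'‖ ≤ M ^ 3 → ‖B * (w * w')‖ < 1 := by
      intro w w' hw hw'
      rw [norm_mul, norm_mul]
      calc ‖B‖ * (‖w‖ * ‖w'‖) ≤ D ^ 3 * (M ^ 3 * M ^ 3) := by gcongr
        _ = (D * M ^ 2) ^ 3 := by ring
        _ < 1 := pow_lt_one₀ (by positivity) hdM (by norm_num)
    have hid : (w1 - w2) * (1 - (A * z2 * (w1 + w2) + (B * (w1 * w1) + B * (w1 * w2) + B * (w2 * w2))))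
        = (z1 - z2) * (z1 ^ 2 + z1 * z2 + z2 ^ 2 + A * w1 ^ 2) := by
      linear_combination r1 - r2
    have hlz1 : l * z1 + (Y1 - l * X1) * w1 = 1 := by
      rw [hz1d, hw1d]
      field_simp
      ring
    have hlz2 : l * z2 + (Y1 - l * X1) * w2 = 1 := by
      have h5 : Y1 - l * X1 = Y2 - l * X2 := by linear_combination -hl2
      rw [h5, hz2d, hw2d]
      field_simp
      ring
    set V : F := A * z2 * (w1 + w2) + (B * (w1 * w1) + B * (w1 * w2) + B * (w2 * w2)) with hVd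
    have hV : ‖V‖ < 1 := by
      rw [hVd, mul_add]
      refine lt_of_le_of_lt (hu _ _) (max_lt ?_ ?_)
      · exact lt_of_le_of_lt (hu _ _) (max_lt (hAw hz2 hw1).2 (hAw hz2 hw2).2)
      · refine lt_of_le_of_lt (hu _ _) (max_lt ?_ (hBw hw2 hw2))
        exact lt_of_le_of_lt (hu _ _) (max_lt (hBw hw1 hw1) (hBw hw1 hw2))
    have hun : ‖1 - V‖ = 1 := by
      have h5 : ‖-V‖ < ‖(1 : F)‖ := by rwa [norm_one, norm_neg]
      have h6 := ult_eq hu h5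
      rw [norm_one, add_comm, ← sub_eq_add_neg] at h6
      exact h6
    have hun0 : 1 - V ≠ 0 := by
      intro h
      rw [h, norm_zero] at hun
      exact zero_ne_one hun
    have hz12 : z1 - z2 ≠ 0 := by
      intro h
      rw [h, zero_mul] at hid
      rcases mul_eq_zero.mp hid with h5 | h5
      · apply hx
        have h6 : Y1 = Y2 := by
          have h7 : w1 = w2 := sub_eq_zero.mp h5
          rw [hw1d, hw2d, one_div, one_div] at h7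
          exact inv_inj.mp h7
        have h8 : z1 = z2 := sub_eq_zero.mp h
        rw [hz1d, hz2d, h6] at h8
        exact (div_left_inj' hY2).mp h8
      · exact hun0 h5
    have hkey : -l * (1 - V)
        = (Y1 - l * X1) * (z1 ^ 2 + z1 * z2 + z2 ^ 2 + A * w1 ^ 2) := by
      apply mul_left_cancel₀ hz12
      linear_combination (Y1 - l * X1) * hid - (1 - V) * (hlz1 - hlz2)
    have hm : Y1 - l * X1 ≠ 0 := by
      intro h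
      rw [h, zero_mul] at hkey
      rcases mul_eq_zero.mp hkey with h5 | h5
      · have h6 : l = 0 := by linear_combination -h5
        rw [h, zero_mul, add_zero, h6, zero_mul] at hlz1
        exact zero_ne_one hlz1
      · exact hun0 h5
    have hle : ‖l‖ ≤ ‖Y1 - l * X1‖ * M ^ 2 := by
      have h5 : ‖l‖ = ‖Y1 - l * X1‖ * ‖z1 ^ 2 + z1 * z2 + z2 ^ 2 + A * w1 ^ 2‖ := by
        rw [← norm_mul, ← hkey, norm_mul, hun, mul_one, norm_neg]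
      rw [h5]
      apply mul_le_mul_of_nonneg_left _ (norm_nonneg _)
      have hsq : ∀ {x y : F}, ‖x‖ ≤ M → ‖y‖ ≤ M → ‖x * y‖ ≤ M ^ 2 := by
        intro x y hx hy
        rw [norm_mul, pow_two]
        exact mul_le_mul hx hy (norm_nonneg _) hM.le
      refine (hu _ _).trans (max_le ((hu _ _).trans (max_le ((hu _ _).trans (max_le ?_ ?_)) ?_)) ?_)
      · rw [pow_two]; exact hsq hz1 hz1
      · exact hsq hz1 hz2
      · rw [pow_two]; exact hsq hz2 hz2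
      · exact (hAw hz1 hw1).1
    have hN : l * (Y1 + Y2) = X1 ^ 2 + X1 * X2 + X2 ^ 2 + A := by
      apply mul_left_cancel₀ hxs
      linear_combination (Y1 + Y2) * hl2 + f1 - f2
    refine core hu h21 h31 hM hD0 hA hB hdM hY1 hY2 hz1 hz2 hw1 (l := l) (m := Y1 - l * X1)
      (by ring) hm2 (by rw [g4]; ring) f3 (by rw [g3]; ring) ?_ ?_ hm hle
    · rw [g3]
      linear_combination hN - l * hl2
    · rw [g3]
      apply mul_left_cancel₀ hxs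
      linear_combination X2 * f1 - X1 * f2 + X1 * (Y2 + l * X2 + (Y1 - l * X1)) * hm2
  · subst hxx hyy
    have hXX : ‖X1 ^ 3 - A * X1 - 2 * B‖ = ‖X1‖ ^ 3 := by
      have hXp : 0 < ‖X1‖ := norm_pos_iff.mpr hX10
      have h1 : ‖-(A * X1) - 2 * B‖ < ‖X1 ^ 3‖ := by
        refine lt_of_le_of_lt (ult_sub hu _ _) (max_lt ?_ ?_)
        · rw [norm_neg, norm_mul, norm_pow]
          calc ‖A‖ * ‖X1‖ ≤ D ^ 2 * ‖X1‖ := mul_le_mul_of_nonneg_right hA (norm_nonneg _)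
            _ < ‖X1‖ ^ 2 * ‖X1‖ :=
              mul_lt_mul_of_pos_right (pow_lt_pow_left₀ hX1 hD0 two_ne_zero) hXp
            _ = ‖X1‖ ^ 3 := by ring
        · rw [norm_mul, norm_pow]
          calc ‖(2 : F)‖ * ‖B‖ ≤ 1 * D ^ 3 := mul_le_mul h21 hB (norm_nonneg _) zero_le_one
            _ = D ^ 3 := one_mul _
            _ < ‖X1‖ ^ 3 := pow_lt_pow_left₀ hX1 hD0 (by norm_num)
      have h2 := ult_eq hu h1
      rw [norm_pow] at h2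
      rw [← h2]
      congr 1
      ring
    have hmY : (Y1 - l * X1) * (2 * Y1) = -(X1 ^ 3 - A * X1 - 2 * B) := by
      linear_combination 2 * f1 - X1 * hl2
    have hm : Y1 - l * X1 ≠ 0 := by
      intro h
      rw [h, zero_mul] at hmY
      have h3 : ‖X1 ^ 3 - A * X1 - 2 * B‖ = 0 := by
        rw [norm_eq_zero]
        linear_combination hmY
      rw [hXX] at h3
      exact hX10 (norm_eq_zero.mp (pow_eq_zero_iff (by norm_num) |>.mp h3))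
    refine core hu h21 h31 hM hD0 hA hB hdM hY1 hY1 hz1 hz1 hw1 (l := l) (m := Y1 - l * X1)
      (by ring) (by ring) (by rw [g4]; ring) f3 (by rw [g3]; ring) ?_ ?_ hm ?_
    · rw [g3]
      linear_combination hl2
    · rw [g3]
      linear_combination X1 * hl2 - f1
    · have h3 : ‖l‖ * ‖X1‖ ^ 3 ≤ ‖Y1 - l * X1‖ * ‖X1‖ ^ 2 := by
        have h4 : l * -(X1 ^ 3 - A * X1 - 2 * B) = (Y1 - l * X1) * (3 * X1 ^ 2 + A) := by
          rw [← hmY, ← hl2]; ring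
        have h5 : ‖3 * X1 ^ 2 + A‖ ≤ ‖X1‖ ^ 2 := by
          refine (hu _ _).trans (max_le ?_ ?_)
          · rw [norm_mul, norm_pow]
            calc ‖(3 : F)‖ * ‖X1‖ ^ 2 ≤ 1 * ‖X1‖ ^ 2 :=
                  mul_le_mul_of_nonneg_right h31 (by positivity)
              _ = ‖X1‖ ^ 2 := one_mul _
          · exact hA.trans (pow_le_pow_left₀ hD0 hX1.le 2)
        calc ‖l‖ * ‖X1‖ ^ 3 = ‖l * -(X1 ^ 3 - A * X1 - 2 * B)‖ := by rw [norm_mul, norm_neg, hXX]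
          _ = ‖(Y1 - l * X1) * (3 * X1 ^ 2 + A)‖ := by rw [h4]
          _ = ‖Y1 - l * X1‖ * ‖3 * X1 ^ 2 + A‖ := norm_mul _ _
          _ ≤ ‖Y1 - l * X1‖ * ‖X1‖ ^ 2 := mul_le_mul_of_nonneg_left h5 (norm_nonneg _)
      have hXp : 0 < ‖X1‖ := norm_pos_iff.mpr hX10
      have h6 : ‖l‖ * ‖X1‖ ≤ ‖Y1 - l * X1‖ := by
        have h7 : (‖l‖ * ‖X1‖) * ‖X1‖ ^ 2 ≤ ‖Y1 - l * X1‖ * ‖X1‖ ^ 2 := by
          calc (‖l‖ * ‖X1‖) * ‖X1‖ ^ 2 = ‖l‖ * ‖X1‖ ^ 3 := by ring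
            _ ≤ _ := h3
        exact le_of_mul_le_mul_right h7 (by positivity)
      have h8 : ‖X1 / Y1‖ ^ 2 ≤ M ^ 2 := pow_le_pow_left₀ (norm_nonneg _) hz1 2
      calc ‖l‖ = (‖l‖ * ‖X1‖) * ‖X1 / Y1‖ ^ 2 := by rw [mul_assoc, a1, mul_one]
        _ ≤ ‖Y1 - l * X1‖ * M ^ 2 := mul_le_mul h6 h8 (by positivity) (norm_nonneg _)

/-- the size relations of a point of `Y ^ 2 = X ^ 3 + A X + B` far away. -/
theorem size (hu : ∀ x y : F, ‖x + y‖ ≤ max ‖x‖ ‖y‖) {A B X Y : F} {D : ℝ} (hD0 : 0 ≤ D)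
    (hA : ‖A‖ ≤ D ^ 2) (hB : ‖B‖ ≤ D ^ 3) (hX : D < ‖X‖) (f : Y ^ 2 = X ^ 3 + A * X + B) :
    Y ≠ 0 ∧ ‖X‖ * ‖X / Y‖ ^ 2 = 1 ∧ ‖Y‖ * ‖X / Y‖ ^ 3 = 1 := by
  have hX0 : 0 < ‖X‖ := lt_of_le_of_lt hD0 hX
  have h1 : ‖A * X + B‖ < ‖X ^ 3‖ := by
    rw [norm_pow]
    refine lt_of_le_of_lt (hu _ _) (max_lt ?_ ?_)
    · rw [norm_mul]
      calc ‖A‖ * ‖X‖ ≤ D ^ 2 * ‖X‖ := mul_le_mul_of_nonneg_right hA (norm_nonneg _)
        _ < ‖X‖ ^ 2 * ‖X‖ := mul_lt_mul_of_pos_right (pow_lt_pow_left₀ hX hD0 two_ne_zero) hX0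
        _ = ‖X‖ ^ 3 := by ring
    · exact hB.trans_lt (pow_lt_pow_left₀ hX hD0 (by norm_num))
  have h2 : ‖Y‖ ^ 2 = ‖X‖ ^ 3 := by
    rw [← norm_pow, ← norm_pow, f, ← ult_eq hu h1]
    congr 1
    ring
  have hY : Y ≠ 0 := by
    rintro rfl
    rw [norm_zero] at h2
    have : 0 < ‖X‖ ^ 3 := pow_pos hX0 3
    rw [← h2] at this
    norm_num at this
  have hY0 : 0 < ‖Y‖ := norm_pos_iff.2 hY
  have h3 : ‖X / Y‖ ^ 2 = 1 / ‖X‖ := by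
    rw [norm_div, div_pow, h2]
    field_simp
  refine ⟨hY, ?_, ?_⟩
  · rw [h3]
    field_simp
  · rw [norm_div, div_pow]
    have h4 : ‖Y‖ ^ 3 = ‖Y‖ * ‖X‖ ^ 3 := by
      calc ‖Y‖ ^ 3 = ‖Y‖ * ‖Y‖ ^ 2 := by ring
        _ = ‖Y‖ * ‖X‖ ^ 3 := by rw [h2]
    rw [h4]
    field_simp

end core

end Pool.Agent.WAQ.H26
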